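import Pool.Agent.Helper819.Good

/-!
The Shafarevich dimension of the moduli space of degree `d` maps of the line is `2 d - 2`.
-/

namespace Pool.Agent.Results.MP_a47518_nt.ShafDimLine

open Pool.Agent.Helper819.Dyn IsDedekindDomain NumberField

/-- Sanity check: the space `M_d^1` has dimension `2 d - 2`. -/
theorem dim_moduli (d : ℕ) (hd : 2 ≤ d) :
    topologicalKrullDim (Moduli (AlgebraicClosure ℚ) 1 d) = ((2 * d - 2 : ℕ) : WithBot ℕ∞) :=
  krullDim_moduli hd

/-- Sanity check: good reduction classes outside the places above `2` are dense. -/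
theorem dense_good (d : ℕ) (K : IntermediateField ℚ (AlgebraicClosure ℚ)) [NumberField K] :
    closure (goodSet 1 d K {v : HeightOneSpectrum (𝓞 K) | v.valuation K 2 ≠ 1}) = Set.univ :=
  goodSet_dense d K

theorem result : ∀ d : ℕ, 2 ≤ d → shafDim 1 d = ((2 * d - 2 : ℕ) : WithBot ℕ∞) :=
  shafDim_line

end Pool.Agent.Results.MP_a47518_nt.ShafDimLine
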